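import Mathlib
import Pool.Agent.Helper884.IC.Compl

/-!
MP_222fdd_al, Q1: the amenability constant of the central Fourier algebra does not increase when
one passes to the quotient by a normal Hall subgroup (or to a quotient by any normal subgroup with
a complement).
-/

open scoped BigOperators TensorProduct
open Pool.Agent.Helper884.IC

noncomputable section

namespace Pool.Agent.Results.MP_222fdd_al.HallQuotient

/-- The space `ZA(G)` of complex class functions on `G`. -/
def ZA (G : Type) [Group G] : Submodule ℂ (G → ℂ) where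
  carrier := {f | ∀ g y : G, f (y * g * y⁻¹) = f g}
  add_mem' := by
    intro a b ha hb g y
    rw [Pi.add_apply, Pi.add_apply, ha, hb]
  zero_mem' := by
    intro g y
    rfl
  smul_mem' := by
    intro c a ha g y
    rw [Pi.smul_apply, Pi.smul_apply, ha]

/-- The coefficient `c_χ = ⟨u, χ⟩ = |G|⁻¹ ∑ u(g) χ(g⁻¹)` of `χ` in the class function `u`. -/
def coef {G : Type} [Group G] [Fintype G] (u chi : G → ℂ) : ℂ :=
  (Nat.card G : ℂ)⁻¹ * ∑ g : G, u g * chi g⁻¹

/-- The norm `‖u‖_A = ∑_χ χ(1) |c_χ|` of the central Fourier algebra; the sum runs over the set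
`Irr G` of irreducible complex characters. -/
def normA {G : Type} [Group G] [Fintype G] (u : ZA G) : ℝ :=
  ∑ chi ∈ Irr G, ‖chi 1‖ * ‖coef u.1 chi‖

/-- The norm of the projective tensor product `ZA(G) ⊗ ZA(G)`. -/
def projNorm {G : Type} [Group G] [Fintype G] (t : ZA G ⊗[ℂ] ZA G) : ℝ :=
  sInf {r | ∃ (n : ℕ) (u v : Fin n → ZA G), t = ∑ i, u i ⊗ₜ[ℂ] v i ∧
    r = ∑ i, normA (u i) * normA (v i)}

open Classical in
/-- The indicator function of a conjugacy class. -/
def ind {G : Type} [Group G] (C : ConjClasses G) : ZA G :=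
  ⟨fun g => if ConjClasses.mk g = C then 1 else 0, fun g y => by
    have : ConjClasses.mk (y * g * y⁻¹) = ConjClasses.mk g := by
      rw [ConjClasses.mk_eq_mk_iff_isConj, isConj_comm]
      exact isConj_iff.2 ⟨y, rfl⟩
    simp only [this]⟩

theorem ind_pos {G : Type} [Group G] {C : ConjClasses G} {g : G} (h : ConjClasses.mk g = C) :
    (ind C).1 g = 1 := if_pos h

theorem ind_neg {G : Type} [Group G] {C : ConjClasses G} {g : G} (h : ConjClasses.mk g ≠ C) :
    (ind C).1 g = 0 := if_neg h

open Classical in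
/-- The amenability constant `AMZA(G) = ‖∑_C 1_C ⊗ 1_C‖`. -/
def AMZA (G : Type) [Group G] [Fintype G] : ℝ :=
  projNorm (∑ C : ConjClasses G, ind C ⊗ₜ[ℂ] ind C)

section

variable {G Q : Type} [Group G] [Group Q] [Fintype G] [Fintype Q]

/-- restriction along a homomorphism -/
def res (s : Q →* G) : ZA G →ₗ[ℂ] ZA Q where
  toFun u := ⟨fun q => u.1 (s q), fun g y => by
    change u.1 (s (y * g * y⁻¹)) = u.1 (s g)
    rw [map_mul, map_mul, map_inv]; exact u.2 _ _⟩
  map_add' u v := rfl
  map_smul' c u := rfl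

theorem coef_eq_B (u chi : G → ℂ) : coef u chi = B u chi := rfl

theorem B_char_nonneg {chi psi : Q → ℂ} {V : Type} [AddCommGroup V] [Module ℂ V]
    [FiniteDimensional ℂ V] (rho : Representation ℂ Q V) (hchi : chi = rho.character)
    (hpsi : IsIrrChar psi) : ∃ n : ℕ, B chi psi = n := by
  obtain ⟨W, _, _, _, sigma, _, rfl⟩ := hpsi
  subst hchi
  haveI : Invertible (Nat.card Q : ℂ) := invertibleOfNonzero cardG_ne
  exact ⟨_, Representation.card_inv_mul_sum_char_mul_char_eq_finrank sigma rho⟩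

theorem irr_one {chi : G → ℂ} (h : IsIrrChar chi) : ∃ n : ℕ, chi 1 = n := by
  obtain ⟨W, _, _, _, sigma, _, rfl⟩ := h
  exact ⟨_, Representation.char_one sigma⟩

/-- the pull back of a character -/
theorem res_irr (s : Q →* G) {chi : G → ℂ} (h : IsIrrChar chi) :
    ∑ psi ∈ Irr Q, ‖psi 1‖ * ‖B (fun q => chi (s q)) psi‖ = ‖chi 1‖ := by
  have hcl : IsClass (fun q => chi (s q)) := by
    intro g y
    change chi (s (y * g * y⁻¹)) = chi (s g)
    rw [map_mul, map_mul, map_inv]
    exact h.isClass _ _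
  have hexp := congrFun (expand _ hcl) 1
  rw [Finset.sum_apply] at hexp
  have hn : ∀ psi ∈ Irr Q, ∃ n : ℕ, B (fun q => chi (s q)) psi = n := by
    intro psi hpsi
    obtain ⟨V, _, _, _, rho, _, rfl⟩ := h
    exact B_char_nonneg (MonoidHom.comp rho s) rfl (mem_Irr.1 hpsi)
  have h1 : ((∑ psi ∈ Irr Q, ‖psi 1‖ * ‖B (fun q => chi (s q)) psi‖ : ℝ) : ℂ) = chi 1 := by
    have e : chi 1 = ∑ psi ∈ Irr Q, B (fun q => chi (s q)) psi * psi 1 := by
      simpa using hexp
    rw [e]
    push_cast
    refine Finset.sum_congr rfl fun psi hpsi => ?_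
    obtain ⟨n, hn⟩ := hn psi hpsi
    obtain ⟨m, hm⟩ := irr_one (mem_Irr.1 hpsi)
    rw [hn, hm]
    simp [mul_comm]
  have h2 : 0 ≤ ∑ psi ∈ Irr Q, ‖psi 1‖ * ‖B (fun q => chi (s q)) psi‖ :=
    Finset.sum_nonneg fun _ _ => by positivity
  rw [← h1, Complex.norm_real, Real.norm_of_nonneg h2]

theorem normA_nonneg (u : ZA G) : 0 ≤ normA u :=
  Finset.sum_nonneg fun _ _ => by positivity

/-- restriction is contractive -/
theorem normA_res (s : Q →* G) (u : ZA G) : normA (res s u) ≤ normA u := by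
  have hu : u.1 = ∑ chi ∈ Irr G, B u.1 chi • chi := expand u.1 u.2
  have hres : (res s u).1 = ∑ chi ∈ Irr G, B u.1 chi • (fun q => chi (s q)) := by
    funext q
    have := congrFun hu (s q)
    rw [Finset.sum_apply] at this ⊢
    exact this
  unfold normA
  calc ∑ psi ∈ Irr Q, ‖psi 1‖ * ‖coef (res s u).1 psi‖
      = ∑ psi ∈ Irr Q, ‖psi 1‖ * ‖∑ chi ∈ Irr G, B u.1 chi * B (fun q => chi (s q)) psi‖ := by
        refine Finset.sum_congr rfl fun psi _ => ?_
        rw [coef_eq_B, hres, B_sum_left]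
        simp only [B_smul_left]
    _ ≤ ∑ psi ∈ Irr Q, ‖psi 1‖ * ∑ chi ∈ Irr G, ‖B u.1 chi‖ * ‖B (fun q => chi (s q)) psi‖ := by
        refine Finset.sum_le_sum fun psi _ => ?_
        refine mul_le_mul_of_nonneg_left ?_ (norm_nonneg _)
        refine (norm_sum_le _ _).trans (le_of_eq ?_)
        refine Finset.sum_congr rfl fun chi _ => norm_mul _ _
    _ = ∑ chi ∈ Irr G, ‖B u.1 chi‖ * ∑ psi ∈ Irr Q, ‖psi 1‖ * ‖B (fun q => chi (s q)) psi‖ := by
        simp only [Finset.mul_sum]
        rw [Finset.sum_comm]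
        refine Finset.sum_congr rfl fun chi _ => Finset.sum_congr rfl fun psi _ => ?_
        ring
    _ = ∑ chi ∈ Irr G, ‖chi 1‖ * ‖coef u.1 chi‖ := by
        refine Finset.sum_congr rfl fun chi hchi => ?_
        rw [res_irr s (mem_Irr.1 hchi), mul_comm]
        rfl

theorem res_ind_of_not (s : Q →* G) (C : ConjClasses G)
    (hC : ∀ q, ConjClasses.mk (s q) ≠ C) : res s (ind C) = 0 := by
  apply Subtype.ext
  funext q
  exact ind_neg (hC q)

theorem conj_iff (s : Q →* G) (p : G →* Q) (hps : ∀ q, p (s q) = q) (q q' : Q) :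
    ConjClasses.mk (s q) = ConjClasses.mk (s q') ↔ ConjClasses.mk q = ConjClasses.mk q' := by
  rw [ConjClasses.mk_eq_mk_iff_isConj, ConjClasses.mk_eq_mk_iff_isConj]
  constructor
  · intro h
    have := p.map_isConj h
    rwa [hps, hps] at this
  · intro h
    exact s.map_isConj h

theorem res_ind (s : Q →* G) (p : G →* Q) (hps : ∀ q, p (s q) = q) (D : ConjClasses Q) :
    res s (ind (ConjClasses.map s D)) = ind D := by
  induction D using Quotient.inductionOn with
  | _ q0 =>
  apply Subtype.ext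
  funext q
  by_cases h : ConjClasses.mk q = ConjClasses.mk q0
  · exact (ind_pos ((conj_iff s p hps q q0).2 h)).trans (ind_pos h).symm
  · exact (ind_neg (fun h' => h ((conj_iff s p hps q q0).1 h'))).trans (ind_neg h).symm

/-- the diagonal is mapped to the diagonal -/
theorem res_diag (s : Q →* G) (p : G →* Q) (hps : ∀ q, p (s q) = q) [Fintype (ConjClasses G)]
    [Fintype (ConjClasses Q)] :
    TensorProduct.map (res s) (res s) (∑ C : ConjClasses G, ind C ⊗ₜ[ℂ] ind C) =
      ∑ D : ConjClasses Q, ind D ⊗ₜ[ℂ] ind D := by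
  classical
  rw [map_sum]
  simp only [TensorProduct.map_tmul]
  have hinj : Function.Injective (ConjClasses.map s : ConjClasses Q → ConjClasses G) := by
    intro D D'
    induction D using Quotient.inductionOn with
    | _ q =>
    induction D' using Quotient.inductionOn with
    | _ q' =>
    intro h
    exact (conj_iff s p hps q q').1 h
  have h1 : ∑ D : ConjClasses Q, ind D ⊗ₜ[ℂ] ind D =
      ∑ C ∈ Finset.univ.image (ConjClasses.map s : ConjClasses Q → ConjClasses G),
        res s (ind C) ⊗ₜ[ℂ] res s (ind C) := by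
    rw [Finset.sum_image (fun a _ b _ h => hinj h)]
    refine Finset.sum_congr rfl fun D _ => ?_
    rw [res_ind s p hps]
  rw [h1]
  symm
  refine Finset.sum_subset (Finset.subset_univ _) fun C _ hC => ?_
  rw [res_ind_of_not s C, TensorProduct.zero_tmul]
  intro q hq
  apply hC
  rw [Finset.mem_image]
  exact ⟨ConjClasses.mk q, Finset.mem_univ _, hq⟩

theorem AMZA_le (s : Q →* G) (p : G →* Q) (hps : ∀ q, p (s q) = q) : AMZA Q ≤ AMZA G := by
  classical
  unfold AMZA projNorm
  refine le_csInf ?_ ?_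
  · let e := Fintype.equivFin (ConjClasses G)
    refine ⟨_, Fintype.card (ConjClasses G), fun i => ind (e.symm i), fun i => ind (e.symm i), ?_,
      rfl⟩
    exact (Equiv.sum_comp e.symm (fun C : ConjClasses G => ind C ⊗ₜ[ℂ] ind C)).symm
  · rintro r ⟨n, u, v, ht, rfl⟩
    have h1 : ∑ i, normA (res s (u i)) * normA (res s (v i)) ≤
        ∑ i, normA (u i) * normA (v i) :=
      Finset.sum_le_sum fun i _ => mul_le_mul (normA_res s _) (normA_res s _)
        (normA_nonneg _) (normA_nonneg _)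
    refine le_trans (csInf_le ?_ ?_) h1
    · refine ⟨0, ?_⟩
      rintro r ⟨n, u, v, -, rfl⟩
      exact Finset.sum_nonneg fun i _ => mul_nonneg (normA_nonneg _) (normA_nonneg _)
    · refine ⟨n, fun i => res s (u i), fun i => res s (v i), ?_, rfl⟩
      rw [← res_diag s p hps, ht, map_sum]
      simp only [TensorProduct.map_tmul]

end

/-- If `s : Q → G` and `p : G → Q` are homomorphisms of finite groups with `p ∘ s = id` then
`AMZA(Q) ≤ AMZA(G)`; in particular `AMZA(G/N) ≤ AMZA(G)` for every normal Hall subgroup `N`. -/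
theorem result :
    (∀ (G Q : Type) [Group G] [Group Q] [Fintype G] [Fintype Q] (s : Q →* G) (p : G →* Q),
      (∀ q, p (s q) = q) → AMZA Q ≤ AMZA G) ∧
    (∀ (G : Type) [Group G] [Fintype G] (N : Subgroup G) [N.Normal] [Fintype (G ⧸ N)],
      (Nat.card N).Coprime N.index → AMZA (G ⧸ N) ≤ AMZA G) := by
  refine ⟨fun G Q _ _ _ _ s p h => AMZA_le s p h, ?_⟩
  intro G _ _ N _ _ hN
  obtain ⟨H, hH⟩ := Subgroup.exists_right_complement'_of_coprime hN
  let e := hH.symm.QuotientMulEquiv
  refine AMZA_le (H.subtype.comp e.toMonoidHom) (QuotientGroup.mk' N) (fun q => ?_)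
  exact e.symm_apply_apply q

end Pool.Agent.Results.MP_222fdd_al.HallQuotient
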